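import Mathlib

/-!
# A bijection from the points to the lines of a projective plane, no point on its line
-/

set_option autoImplicit false

namespace Pool.Agent.H64.EQ

open Finset Classical

/-- a regular bipartite relation between finite types of the same size contains the graph of a bijection -/
theorem exists_equiv {P L : Type} [Fintype P] [Fintype L] (hcard : Fintype.card P = Fintype.card L) (R : P → L → Prop)
    (k : ℕ) (hk : 0 < k) (h1 : ∀ p, (univ.filter fun l => R p l).card = k)
    (h2 : ∀ l, (univ.filter fun p => R p l).card = k) : ∃ σ : P ≃ L, ∀ p, R p (σ p) := by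
  obtain ⟨f, hf, hfR⟩ := (Finset.all_card_le_biUnion_card_iff_exists_injective
    (fun p : P => univ.filter fun l : L => R p l)).1 (by
      intro s
      have h3 : ∑ p ∈ s, (univ.filter fun l => R p l).card ≤
          ∑ l ∈ s.biUnion (fun p => univ.filter fun l : L => R p l), (univ.filter fun p => R p l).card := by
        have e1 : ∑ p ∈ s, (univ.filter fun l => R p l).card =
            ((s ×ˢ (univ : Finset L)).filter fun x => R x.1 x.2).card := by
          rw [card_filter, sum_product]
          refine sum_congr rfl fun p _ => ?_
          rw [card_filter]
        have e2 : ∑ l ∈ s.biUnion (fun p => univ.filter fun l : L => R p l), (univ.filter fun p => R p l).card =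
            (((univ : Finset P) ×ˢ (s.biUnion (fun p => univ.filter fun l : L => R p l))).filter fun x => R x.1 x.2).card := by
          rw [card_filter, sum_product_right]
          refine sum_congr rfl fun l _ => ?_
          rw [card_filter]
        rw [e1, e2]
        refine card_le_card ?_
        rintro ⟨p, l⟩ hpl
        simp only [mem_filter, mem_product, mem_univ, and_true, true_and] at hpl ⊢
        refine ⟨?_, hpl.2⟩
        rw [mem_biUnion]
        exact ⟨p, hpl.1, mem_filter.2 ⟨mem_univ _, hpl.2⟩⟩
      simp only [h1, h2, sum_const, smul_eq_mul] at h3
      exact Nat.le_of_mul_le_mul_right h3 hk)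
  have hb : Function.Bijective f := (Fintype.bijective_iff_injective_and_card f).2 ⟨hf, hcard⟩
  refine ⟨Equiv.ofBijective f hb, fun p => ?_⟩
  have := hfR p
  simp only [mem_filter, mem_univ, true_and] at this
  exact this

/-- an anti-flag bijection -/
theorem exists_antiflag {P L : Type} [Membership P L] [Fintype P] [Fintype L]
    [Configuration.ProjectivePlane P L] : ∃ σ : P ≃ L, ∀ p, p ∉ σ p := by
  set n := Configuration.ProjectivePlane.order P L with hn
  have h1 : 1 < n := Configuration.ProjectivePlane.one_lt_order P L
  have hdP : ∀ p : P, (univ.filter fun l : L => p ∈ l).card = n + 1 := by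
    intro p
    have := Configuration.ProjectivePlane.lineCount_eq (L := L) p
    rw [Configuration.lineCount, Nat.card_eq_fintype_card, Fintype.card_subtype] at this
    exact this
  have hdB : ∀ l : L, (univ.filter fun p : P => p ∈ l).card = n + 1 := by
    intro l
    have := Configuration.ProjectivePlane.pointCount_eq (P := P) l
    rw [Configuration.pointCount, Nat.card_eq_fintype_card, Fintype.card_subtype] at this
    exact this
  have hcP : Fintype.card P = n ^ 2 + n + 1 := Configuration.ProjectivePlane.card_points P L
  have hcL : Fintype.card L = n ^ 2 + n + 1 := Configuration.ProjectivePlane.card_lines P L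
  refine exists_equiv (by rw [hcP, hcL]) (fun p l => p ∉ l) (n ^ 2) (by positivity) ?_ ?_
  · intro p
    have e : ((univ.filter fun l : L => p ∈ l)ᶜ).card = n ^ 2 := by
      rw [card_compl, hdP p, hcL]
      omega
    rw [← e]
    congr 1
    ext l
    simp only [mem_filter, mem_univ, true_and, mem_compl]
  · intro l
    have e : ((univ.filter fun p : P => p ∈ l)ᶜ).card = n ^ 2 := by
      rw [card_compl, hdB l, hcP]
      omega
    rw [← e]
    congr 1
    ext p
    simp only [mem_filter, mem_univ, true_and, mem_compl]

end Pool.Agent.H64.EQ
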