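import Mathlib
import Pool.Agent.H17.Incidence

/-!
# Regular graphs with large gap from planes of smaller order

`N` = incidence matrix of a plane of order `n`, `P` = permutation matrix of a bijection `σ` from the points to the lines with
`p ∉ σ p`, `m ≥ 2 √n`: all singular values of `N ⊗ I_m + P ⊗ J_m` are at least `√n`.
-/

set_option autoImplicit false

namespace Pool.Agent.H64.EQ

open Finset Classical Pool.Agent.H17

/-- the incidence relation `N ⊗ I_m + P ⊗ J_m` -/
def Rel {P L : Type} (R : P → L → Prop) (σ : P ≃ L) (m : ℕ) (x : P × Fin m) (y : L × Fin m) : Prop :=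
  (R x.1 y.1 ∧ x.2 = y.2) ∨ y.1 = σ x.1

section Quad

variable {X Y : Type} [Fintype X] [Fintype Y]

/-- the quadratic inequality -/
theorem quad (R : X → Y → Prop) (τ : X ≃ Y) (n m : ℕ) (hm : 2 * √n ≤ m) (hm0 : 0 < m)
    (hdis : ∀ x, ¬ R x (τ x))
    (hcol : ∀ y, (univ.filter fun x => R x y).card = n + 1)
    (hN : ∀ f : X → ℝ, ∑ y, (∑ x, if R x y then f x else 0) ^ 2 = n * ∑ x, f x ^ 2 + (∑ x, f x) ^ 2)
    (hrow : ∀ x, (univ.filter fun y => R x y).card = n + 1)
    (f : X × Fin m → ℝ) :
    (n : ℝ) * ∑ x, f x ^ 2 ≤ ∑ y : Y × Fin m, (∑ x, if Rel R τ m x y then f x else 0) ^ 2 := by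
  have hmR : (0 : ℝ) < m := by exact_mod_cast hm0
  -- the sum over a block
  have hval : ∀ y : Y × Fin m, (∑ x, if Rel R τ m x y then f x else 0) =
      (∑ x, if R x y.1 then f (x, y.2) else 0) + ∑ i, f (τ.symm y.1, i) := by
    rintro ⟨y, j⟩
    rw [Fintype.sum_prod_type]
    have h1 : ∀ x : X, (∑ i, if Rel R τ m (x, i) (y, j) then f (x, i) else 0) =
        (if R x y then f (x, j) else 0) + (if x = τ.symm y then ∑ i, f (x, i) else 0) := by
      intro x
      by_cases hx : x = τ.symm y
      · have hy : y = τ x := by rw [hx, Equiv.apply_symm_apply]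
        have hR : ¬ R x y := by rw [hy]; exact hdis x
        rw [if_pos hx, if_neg hR, zero_add]
        refine sum_congr rfl fun i _ => ?_
        exact if_pos (show Rel R τ m (x, i) (y, j) from Or.inr hy)
      · have hy : ¬ y = τ x := fun h => hx (by rw [h, Equiv.symm_apply_apply])
        rw [if_neg hx, add_zero]
        by_cases hR : R x y
        · rw [if_pos hR]
          have h2 : ∀ i : Fin m, (if Rel R τ m (x, i) (y, j) then f (x, i) else 0) = if i = j then f (x, i) else 0 := by
            intro i
            by_cases hi : i = j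
            · rw [if_pos hi]
              exact if_pos (show Rel R τ m (x, i) (y, j) from Or.inl ⟨hR, hi⟩)
            · rw [if_neg hi, if_neg]
              rintro (h | h)
              · exact hi h.2
              · exact hy h
          simp only [h2, sum_ite_eq', mem_univ, if_true]
        · rw [if_neg hR]
          refine sum_eq_zero fun i _ => ?_
          rw [if_neg]
          rintro (h | h)
          · exact hR h.1
          · exact hy h
    simp only [h1, sum_add_distrib, sum_ite_eq', mem_univ, if_true]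
  -- notation
  set F : X → ℝ := fun x => ∑ i, f (x, i) with hF
  set N : (X → ℝ) → Y → ℝ := fun g y => ∑ x, if R x y then g x else 0 with hNdef
  have hNadd : ∀ g h : X → ℝ, ∀ y, N (fun x => g x + h x) y = N g y + N h y := by
    intro g h y
    simp only [hNdef]
    rw [← sum_add_distrib]
    refine sum_congr rfl fun x _ => ?_
    split_ifs <;> simp
  have hNsmul : ∀ (c : ℝ) (g : X → ℝ) (y : Y), N (fun x => c * g x) y = c * N g y := by
    intro c g y
    simp only [hNdef, mul_sum]
    refine sum_congr rfl fun x _ => ?_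
    split_ifs <;> simp
  have hNsum : ∀ (g : Fin m → X → ℝ) (y : Y), N (fun x => ∑ i, g i x) y = ∑ i, N (g i) y := by
    intro g y
    simp only [hNdef]
    rw [sum_comm]
    refine sum_congr rfl fun x _ => ?_
    split_ifs <;> simp
  have hNone : ∀ y, N (fun _ => (1 : ℝ)) y = n + 1 := by
    intro y
    simp only [hNdef]
    rw [← sum_filter, sum_const, nsmul_eq_mul, mul_one, hcol y]
    push_cast
    rfl
  have hNtot : ∀ g : X → ℝ, ∑ y, N g y = (n + 1) * ∑ x, g x := by
    intro g
    simp only [hNdef]
    rw [sum_comm, mul_sum]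
    refine sum_congr rfl fun x _ => ?_
    rw [← sum_filter, sum_const, nsmul_eq_mul, hrow x]
    push_cast
    rfl
  -- the deviations
  set g : Fin m → X → ℝ := fun i x => f (x, i) - F x / m with hg
  have hgs : ∀ x, ∑ i, g i x = 0 := by
    intro x
    simp only [hg, sum_sub_distrib, sum_const, card_univ, Fintype.card_fin, nsmul_eq_mul]
    rw [hF]
    field_simp
    ring
  -- part one: decomposition of the right side
  have hdec : ∀ (y : Y) (j : Fin m), N (fun x => f (x, j)) y + F (τ.symm y) =
      (1 / m) * (N F y + m * F (τ.symm y)) + N (g j) y := by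
    intro y j
    have h1 : N (fun x => f (x, j)) y = N (fun x => (1 / m : ℝ) * F x + g j x) y := by
      congr 1
      funext x
      simp only [hg]
      ring
    rw [h1, hNadd, hNsmul]
    field_simp
    ring
  have hNg : ∀ y, ∑ j, N (g j) y = 0 := by
    intro y
    rw [← hNsum]
    simp only [hgs]
    simp only [hNdef]
    refine sum_eq_zero fun x _ => ?_
    split_ifs <;> rfl
  have hR : ∑ y : Y × Fin m, (∑ x, if Rel R τ m x y then f x else 0) ^ 2 =
      (1 / m) * ∑ y, (N F y + m * F (τ.symm y)) ^ 2 + ∑ j, ∑ y, (N (g j) y) ^ 2 := by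
    rw [Fintype.sum_prod_type, sum_comm (s := (univ : Finset (Fin m))), mul_sum, ← sum_add_distrib]
    refine sum_congr rfl fun y _ => ?_
    have h1 : ∀ j : Fin m, (∑ x, if Rel R τ m x (y, j) then f x else 0) ^ 2 =
        (1 / m) ^ 2 * (N F y + m * F (τ.symm y)) ^ 2 + 2 * ((1 / m) * (N F y + m * F (τ.symm y))) * N (g j) y +
          (N (g j) y) ^ 2 := by
      intro j
      rw [hval]
      have := hdec y j
      simp only [hNdef] at this ⊢
      rw [show (∑ i, f (τ.symm y, i)) = F (τ.symm y) from rfl, this]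
      ring
    simp only [h1, sum_add_distrib, ← mul_sum, hNg, sum_const, card_univ, Fintype.card_fin, nsmul_eq_mul]
    field_simp
    ring
  have hL : ∑ x, f x ^ 2 = (1 / m) * ∑ x, F x ^ 2 + ∑ j, ∑ x, (g j x) ^ 2 := by
    rw [Fintype.sum_prod_type, sum_comm (s := (univ : Finset (Fin m))), mul_sum, ← sum_add_distrib]
    refine sum_congr rfl fun x _ => ?_
    have h1 : ∀ j : Fin m, f (x, j) ^ 2 = (1 / m) ^ 2 * F x ^ 2 + 2 * ((1 / m) * F x) * g j x + (g j x) ^ 2 := by
      intro j
      simp only [hg]
      field_simp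
      ring
    simp only [h1, sum_add_distrib, ← mul_sum, hgs, sum_const, card_univ, Fintype.card_fin, nsmul_eq_mul]
    field_simp
    ring
  rw [hR, hL, mul_add]
  refine add_le_add ?_ ?_
  · -- the symmetric part
    have key : (n : ℝ) * ∑ x, F x ^ 2 ≤ ∑ y, (N F y + m * F (τ.symm y)) ^ 2 := by
      rcases isEmpty_or_nonempty X with hX | hX
      · simp only [univ_eq_empty, sum_empty, mul_zero]
        exact sum_nonneg fun _ _ => sq_nonneg _
      set v : ℝ := (Fintype.card X : ℝ) with hv
      have hv0 : 0 < v := by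
        rw [hv]
        exact_mod_cast Fintype.card_pos
      have hcardY : (Fintype.card Y : ℝ) = v := by rw [hv, Fintype.card_congr τ]
      set c : ℝ := (∑ x, F x) / v with hc
      set h : X → ℝ := fun x => F x - c with hh
      have hh0 : ∑ x, h x = 0 := by
        simp only [hh, sum_sub_distrib, sum_const, card_univ, nsmul_eq_mul]
        rw [hc]
        field_simp
        ring
      have hFh : ∀ x, F x = c * 1 + h x := fun x => by simp [hh]
      have h1 : ∑ x, F x ^ 2 = v * c ^ 2 + ∑ x, h x ^ 2 := by
        have : ∀ x, F x ^ 2 = c ^ 2 + 2 * c * h x + h x ^ 2 := fun x => by rw [hFh x]; ring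
        simp only [this, sum_add_distrib, ← mul_sum, hh0, sum_const, card_univ, nsmul_eq_mul]
        ring
      have hNF : ∀ y, N F y = c * (n + 1) + N h y := by
        intro y
        have : N F y = N (fun x => c * 1 + h x) y := by
          congr 1
          funext x
          exact hFh x
        rw [this, hNadd, hNsmul c (fun _ => 1) y, hNone]
      have hτ : ∀ k : X → ℝ, ∑ y, k (τ.symm y) = ∑ x, k x := fun k => Equiv.sum_comp τ.symm k
      have h2 : ∑ y, (N F y + m * F (τ.symm y)) ^ 2 =
          v * ((n + 1 + m) * c) ^ 2 + ∑ y, (N h y + m * h (τ.symm y)) ^ 2 := by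
        have : ∀ y, (N F y + m * F (τ.symm y)) ^ 2 = ((n + 1 + m) * c) ^ 2 +
            2 * ((n + 1 + m) * c) * (N h y + m * h (τ.symm y)) + (N h y + m * h (τ.symm y)) ^ 2 := by
          intro y
          rw [hNF y, hFh (τ.symm y)]
          ring
        simp only [this, sum_add_distrib, ← mul_sum, hNtot, hτ h, hh0, sum_const, card_univ, nsmul_eq_mul, hcardY]
        ring
      have h3 : (n : ℝ) * ∑ x, h x ^ 2 ≤ ∑ y, (N h y + m * h (τ.symm y)) ^ 2 := by
        set s : ℝ := √n with hs
        have hs2 : s ^ 2 = n := Real.sq_sqrt (Nat.cast_nonneg n)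
        rcases eq_or_lt_of_le (Real.sqrt_nonneg (n : ℝ)) with hn0 | hn0
        · have : (n : ℝ) = 0 := by rw [← hs2, hs, ← hn0]; ring
          rw [this, zero_mul]
          exact sum_nonneg fun _ _ => sq_nonneg _
        have hs0 : 0 < s := hn0
        have h4 : ∀ y, s * (N h y + m * h (τ.symm y)) ^ 2 ≥
            s * (N h y) ^ 2 * (1 - m / s) + s * (m * h (τ.symm y)) ^ 2 * (1 - s / m) := by
          intro y
          have e1 : s * (N h y + m * h (τ.symm y)) ^ 2 - (s * (N h y) ^ 2 * (1 - m / s) +
              s * (m * h (τ.symm y)) ^ 2 * (1 - s / m)) = m * (N h y + s * h (τ.symm y)) ^ 2 := by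
            field_simp
            ring
          nlinarith [mul_nonneg hmR.le (sq_nonneg (N h y + s * h (τ.symm y)))]
        have h5 : ∑ y, s * (N h y + m * h (τ.symm y)) ^ 2 ≥
            ∑ y, (s * (N h y) ^ 2 * (1 - m / s) + s * (m * h (τ.symm y)) ^ 2 * (1 - s / m)) :=
          sum_le_sum fun y _ => h4 y
        have h6 : ∑ y, (N h y) ^ 2 = n * ∑ x, h x ^ 2 := by
          have := hN h
          rw [hh0] at this
          rw [this]
          ring
        have h7 : ∑ y, (h (τ.symm y)) ^ 2 = ∑ x, h x ^ 2 := hτ fun x => h x ^ 2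
        have h8 : ∑ y, (s * (N h y) ^ 2 * (1 - m / s) + s * (m * h (τ.symm y)) ^ 2 * (1 - s / m)) =
            s * (m - s) ^ 2 * ∑ x, h x ^ 2 := by
          have e : ∀ y, s * (N h y) ^ 2 * (1 - m / s) + s * (m * h (τ.symm y)) ^ 2 * (1 - s / m) =
              (s - m) * (N h y) ^ 2 + (s * m ^ 2 - s ^ 2 * m) * (h (τ.symm y)) ^ 2 := by
            intro y
            field_simp
          simp only [e, sum_add_distrib, ← mul_sum, h6, h7]
          rw [← hs2]
          ring
        rw [h8, ← mul_sum] at h5
        have h9 : s * ((n : ℝ) * ∑ x, h x ^ 2) ≤ s * ∑ y, (N h y + m * h (τ.symm y)) ^ 2 := by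
          refine le_trans ?_ h5
          have hsum : 0 ≤ ∑ x, h x ^ 2 := sum_nonneg fun _ _ => sq_nonneg _
          have h10 : s ^ 2 ≤ (m - s) ^ 2 := by nlinarith
          rw [← hs2]
          nlinarith [mul_le_mul_of_nonneg_right h10 hsum]
        exact le_of_mul_le_mul_left h9 hs0
      rw [h1, h2, mul_add]
      refine add_le_add ?_ h3
      have h11 : (n : ℝ) ≤ (n + 1 + m) ^ 2 := by
        have : (0 : ℝ) ≤ n := Nat.cast_nonneg n
        nlinarith
      have h12 : 0 ≤ v * c ^ 2 := by positivity
      nlinarith [mul_le_mul_of_nonneg_left h11 h12]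
    have hm1 : (0 : ℝ) ≤ 1 / m := by positivity
    have := mul_le_mul_of_nonneg_left key hm1
    linarith
  · rw [mul_sum]
    refine sum_le_sum fun j _ => ?_
    have := hN (g j)
    simp only [hNdef]
    rw [this]
    nlinarith [sq_nonneg (∑ x, g j x)]

end Quad

end Pool.Agent.H64.EQ
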