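import Mathlib
import Pool.Agent.H64.EQ.Quad
import Pool.Agent.H64.EQ.Hall

/-!
# `gap(G_{=d}) ≥ √n / d` for every order `n` of a projective plane with `(√n + 1)² ≤ d`
-/

set_option autoImplicit false

namespace Pool.Agent.H64.EQ

open Finset Classical Pool.Agent.H17

theorem rel_graph {P L : Type} [Membership P L] [Fintype P] [Fintype L]
    [Configuration.ProjectivePlane P L] (n m : ℕ) (hn : Configuration.ProjectivePlane.order P L = n)
    (hm : 2 * √n ≤ m) (σ : P ≃ L) (hσ : ∀ p, p ∉ σ p) :
    √n / ((n + 1 + m : ℕ) : ℝ) ≤ gap (incidenceGraph (Rel (fun (p : P) (l : L) => p ∈ l) σ m)) ∧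
      InRegular (n + 1 + m) (incidenceGraph (Rel (fun (p : P) (l : L) => p ∈ l) σ m)) := by
  have h1 : 1 < n := by
    rw [← hn]; exact Configuration.ProjectivePlane.one_lt_order P L
  have hm0 : 0 < m := by
    rcases Nat.eq_zero_or_pos m with h | h
    · exfalso
      rw [h] at hm
      have h2 : 0 < √(n : ℝ) := Real.sqrt_pos.2 (by exact_mod_cast (by omega : 0 < n))
      simp at hm
      linarith
    · exact h
  have hdP : ∀ p : P, (univ.filter fun l : L => p ∈ l).card = n + 1 := by
    intro p
    have := Configuration.ProjectivePlane.lineCount_eq (L := L) p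
    rw [hn, Configuration.lineCount, Nat.card_eq_fintype_card, Fintype.card_subtype] at this
    exact this
  have hdB : ∀ l : L, (univ.filter fun p : P => p ∈ l).card = n + 1 := by
    intro l
    have := Configuration.ProjectivePlane.pointCount_eq (P := P) l
    rw [hn, Configuration.pointCount, Nat.card_eq_fintype_card, Fintype.card_subtype] at this
    exact this
  have hcardP := Configuration.ProjectivePlane.card_points P L
  have hne : Nonempty P := by
    rw [← Fintype.card_pos_iff, hcardP]; positivity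
  have hpp : ∀ p q : P, p ≠ q → (univ.filter fun l : L => p ∈ l ∧ q ∈ l).card = 1 := by
    intro p q hpq
    rw [card_eq_one]
    refine ⟨Configuration.HasLines.mkLine hpq, ?_⟩
    have hax := Configuration.HasLines.mkLine_ax (L := L) hpq
    ext l
    simp only [mem_filter, mem_univ, true_and, mem_singleton]
    constructor
    · intro h
      exact (Configuration.Nondegenerate.eq_or_eq h.1 h.2 hax.1 hax.2).resolve_left hpq
    · rintro rfl; exact hax
  have hll : ∀ l m : L, l ≠ m → (univ.filter fun p : P => p ∈ l ∧ p ∈ m).card = 1 := by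
    intro l m hlm
    rw [card_eq_one]
    refine ⟨Configuration.HasPoints.mkPoint hlm, ?_⟩
    have hax := Configuration.HasPoints.mkPoint_ax (P := P) hlm
    ext p
    simp only [mem_filter, mem_univ, true_and, mem_singleton]
    constructor
    · intro h
      exact (Configuration.Nondegenerate.eq_or_eq h.1 hax.1 h.2 hax.2).resolve_right hlm
    · rintro rfl; exact hax
  -- the quadratic forms of the plane
  have hNP : ∀ f : P → ℝ, ∑ l : L, (∑ p, if p ∈ l then f p else 0) ^ 2 = n * ∑ p, f p ^ 2 + (∑ p, f p) ^ 2 := by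
    intro f
    have := inc_quad (fun (p : P) (l : L) => p ∈ l) f
    rw [this, quad_const P n (fun p q => (univ.filter fun l : L => p ∈ l ∧ q ∈ l).card) f
      (fun p => by simp only [and_self]; exact hdP p) hpp]
  have hNL : ∀ f : L → ℝ, ∑ p : P, (∑ l, if p ∈ l then f l else 0) ^ 2 = n * ∑ l, f l ^ 2 + (∑ l, f l) ^ 2 := by
    intro f
    have := inc_quad (fun (l : L) (p : P) => p ∈ l) f
    rw [this, quad_const L n (fun l m => (univ.filter fun p : P => p ∈ l ∧ p ∈ m).card) f
      (fun l => by simp only [and_self]; exact hdB l) hll]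
  -- the dual relation
  have hdual : ∀ (x : P × Fin m) (y : L × Fin m), Rel (fun (p : P) (l : L) => p ∈ l) σ m x y ↔
      Rel (fun (l : L) (p : P) => p ∈ l) σ.symm m y x := by
    rintro ⟨p, i⟩ ⟨l, j⟩
    constructor
    · rintro (⟨h, h'⟩ | h)
      · exact Or.inl ⟨h, h'.symm⟩
      · refine Or.inr ?_
        show p = σ.symm l
        have h' : l = σ p := h
        rw [h', Equiv.symm_apply_apply]
    · rintro (⟨h, h'⟩ | h)
      · exact Or.inl ⟨h, h'.symm⟩
      · refine Or.inr ?_
        show l = σ p
        have h' : p = σ.symm l := h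
        rw [h', Equiv.apply_symm_apply]
  -- degrees
  have hcard : ∀ (X Y : Type) [Fintype X] [Fintype Y] (R : X → Y → Prop) (τ : X ≃ Y),
      (∀ x, ¬ R x (τ x)) → (∀ x, (univ.filter fun y => R x y).card = n + 1) → ∀ x : X × Fin m,
      (univ.filter fun y => Rel R τ m x y).card = n + 1 + m := by
    intro X Y _ _ R τ hdis hd x
    have e : (univ.filter fun y => Rel R τ m x y) =
        (univ.filter fun y : Y => R x.1 y).map ⟨fun y => (y, x.2), fun a b h => (Prod.ext_iff.1 h).1⟩ ∪
          (univ : Finset (Fin m)).map ⟨fun j => (τ x.1, j), fun a b h => (Prod.ext_iff.1 h).2⟩ := by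
      ext ⟨y, j⟩
      simp only [mem_filter, mem_univ, true_and, mem_union, mem_map, Function.Embedding.coeFn_mk, Prod.mk.injEq, Rel]
      constructor
      · rintro (⟨h, h'⟩ | h)
        · exact Or.inl ⟨y, h, rfl, h'⟩
        · exact Or.inr ⟨j, h.symm, rfl⟩
      · rintro (⟨y', h, h', h''⟩ | ⟨j', h, h'⟩)
        · subst h'
          exact Or.inl ⟨h, h''⟩
        · exact Or.inr h.symm
    rw [e, card_union_of_disjoint, card_map, card_map, hd, card_univ, Fintype.card_fin]
    rw [disjoint_left]
    rintro ⟨y, j⟩ h2 h3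
    simp only [mem_map, mem_filter, mem_univ, true_and, Function.Embedding.coeFn_mk, Prod.mk.injEq] at h2 h3
    obtain ⟨y', h4, h5, -⟩ := h2
    obtain ⟨j', h6, -⟩ := h3
    subst h5
    rw [← h6] at h4
    exact hdis _ h4
  have hσ' : ∀ l : L, ¬ σ.symm l ∈ l := by
    intro l h
    have := hσ (σ.symm l)
    rw [Equiv.apply_symm_apply] at this
    exact this h
  have hdegP : ∀ x : P × Fin m, (univ.filter fun y => Rel (fun (p : P) (l : L) => p ∈ l) σ m x y).card = n + 1 + m :=
    hcard P L _ σ hσ hdP
  have hdegL : ∀ y : L × Fin m, (univ.filter fun x => Rel (fun (p : P) (l : L) => p ∈ l) σ m x y).card = n + 1 + m := by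
    intro y
    have := hcard L P (fun (l : L) (p : P) => p ∈ l) σ.symm hσ' hdB y
    rw [← this]
    congr 1
    ext x
    simp only [mem_filter, mem_univ, true_and]
    exact hdual x y
  have hneI : Nonempty (P × Fin m) := ⟨(hne.some, ⟨0, hm0⟩)⟩
  refine ⟨?_, ?_⟩
  · refine le_gap_incidence _ (n + 1 + m) (by omega) hdegP hdegL (n : ℝ) (by positivity) ?_ ?_
    · intro f
      exact quad (fun (p : P) (l : L) => p ∈ l) σ n m hm hm0 hσ hdB hNP hdP f
    · intro f
      have h2 := quad (fun (l : L) (p : P) => p ∈ l) σ.symm n m hm hm0 hσ' hdP hNL hdB f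
      refine h2.trans (le_of_eq ?_)
      refine sum_congr rfl fun x _ => ?_
      congr 1
      refine sum_congr rfl fun y _ => ?_
      by_cases h3 : Rel (fun (p : P) (l : L) => p ∈ l) σ m x y
      · rw [if_pos h3]
        exact if_pos ((hdual x y).1 h3)
      · rw [if_neg h3]
        exact if_neg fun h => h3 ((hdual x y).2 h)
  · refine ⟨?_, ?_, ?_⟩
    · rw [Fintype.card_sum, Fintype.card_prod, Fintype.card_prod, hcardP, hn, Fintype.card_fin]
      nlinarith
    · -- connectedness
      set G := incidenceGraph (Rel (fun (p : P) (l : L) => p ∈ l) σ m) with hG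
      have hpl : ∀ (p : P) (l : L) (i : Fin m), p ∈ l → G.Reachable (Sum.inl (p, i)) (Sum.inr (l, i)) := by
        intro p l i h
        have a1 : G.Adj (Sum.inl (p, i)) (Sum.inr (l, i)) := Or.inl ⟨h, rfl⟩
        exact a1.reachable
      have hconn : ∀ (p q : P) (i : Fin m), G.Reachable (Sum.inl (p, i)) (Sum.inl (q, i)) := by
        intro p q i
        by_cases hpq : p = q
        · subst hpq; exact SimpleGraph.Reachable.refl _
        · have hax := Configuration.HasLines.mkLine_ax (L := L) hpq
          exact (hpl p _ i hax.1).trans (hpl q _ i hax.2).symm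
      have hline : ∀ l : L, ∃ p : P, p ∈ l := by
        intro l
        have : 0 < (univ.filter fun p : P => p ∈ l).card := by rw [hdB]; omega
        obtain ⟨p, hp⟩ := card_pos.1 this
        exact ⟨p, (mem_filter.1 hp).2⟩
      have hlay : ∀ (p : P) (i j : Fin m), G.Reachable (Sum.inl (p, i)) (Sum.inl (p, j)) := by
        intro p i j
        have a1 : G.Adj (Sum.inl (p, i)) (Sum.inr (σ p, j)) := Or.inr rfl
        obtain ⟨q, hq⟩ := hline (σ p)
        exact a1.reachable.trans ((hpl q (σ p) j hq).symm.trans (hconn q p j))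
      obtain ⟨p₀⟩ := hne
      have hall : ∀ x, G.Reachable (Sum.inl (p₀, ⟨0, hm0⟩)) x := by
        rintro (⟨p, i⟩ | ⟨l, i⟩)
        · exact (hlay p₀ _ i).trans (hconn p₀ p i)
        · obtain ⟨q, hq⟩ := hline l
          exact (hlay p₀ _ i).trans ((hconn p₀ q i).trans (hpl q l i hq))
      have : Nonempty (P × Fin m ⊕ L × Fin m) := ⟨Sum.inl (p₀, ⟨0, hm0⟩)⟩
      exact SimpleGraph.Connected.mk fun x y => (hall x).symm.trans (hall y)
    · rintro (x | y)
      · rw [inc_degree_inl]; exact hdegP x
      · rw [inc_degree_inr]; exact hdegL y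

theorem bddAbove_regular (d : ℕ) (hd : 0 < d) :
    BddAbove {g : ℝ | ∃ (V : Type) (_ : Fintype V) (G : SimpleGraph V), InRegular d G ∧ g = gap G} := by
  obtain ⟨b, hb⟩ := bddAbove_minDegree hd
  refine ⟨b, ?_⟩
  rintro g ⟨V, _, G, hG, rfl⟩
  exact hb ⟨V, _, G, InRegular.inMinDegree G hG, rfl⟩

/-- **the explicit lower bound**, for every order `n` of a projective plane -/
theorem explicit_plane (n d : ℕ) (h : PlaneExists n) (hd : (√n + 1) ^ 2 ≤ d) : √n / d ≤ gapRegular d := by
  obtain ⟨P, L, mem, hP, hL, hPL, horder⟩ := h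
  let _ : Fintype P := Fintype.ofFinite P
  let _ : Fintype L := Fintype.ofFinite L
  have hs : √(n : ℝ) ^ 2 = n := Real.sq_sqrt (Nat.cast_nonneg n)
  have h0 : 0 ≤ √(n : ℝ) := Real.sqrt_nonneg _
  have h1 : (n : ℝ) + 1 ≤ d := by nlinarith
  have h2 : n + 1 ≤ d := by exact_mod_cast h1
  obtain ⟨m, rfl⟩ : ∃ m, d = n + 1 + m := ⟨d - (n + 1), by omega⟩
  have hm : 2 * √(n : ℝ) ≤ m := by
    push_cast at hd
    nlinarith
  obtain ⟨σ, hσ⟩ := exists_antiflag (P := P) (L := L)
  obtain ⟨h3, h4⟩ := rel_graph (P := P) (L := L) n m horder hm σ hσ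
  exact h3.trans (le_csSup (bddAbove_regular _ (by omega)) ⟨_, _, _, h4, rfl⟩)

/-- planes over finite fields -/
theorem planeExists_primePow (q : ℕ) (hq : IsPrimePow q) : PlaneExists q := by
  obtain ⟨p, k, hp, hk, rfl⟩ := hq
  have hp' : p.Prime := hp.nat_prime
  have : Fact p.Prime := ⟨hp'⟩
  let K := GaloisField p k
  have hfin : Finite K := inferInstance
  let _ : Fintype K := Fintype.ofFinite K
  have hcard : Nat.card K = p ^ k := GaloisField.card p k hk.ne'
  have hcard' : Fintype.card K = p ^ k := by rw [← Nat.card_eq_fintype_card, hcard]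
  have hfin2 : Finite (Projectivization K (Fin 3 → K)) := inferInstance
  let _ : Fintype (Projectivization K (Fin 3 → K)) := Fintype.ofFinite _
  refine ⟨Projectivization K (Fin 3 → K), Projectivization K (Fin 3 → K),
    inferInstance, inferInstance, inferInstance, inferInstance, ?_⟩
  have h1 : Fintype.card (Projectivization K (Fin 3 → K)) = (p ^ k) ^ 2 + p ^ k + 1 := by
    rw [← Nat.card_eq_fintype_card, Projectivization.card_of_finrank K (Fin 3 → K) (n := 3)]
    · simp [Finset.sum_range_succ, hcard']; ring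
    · simp
  have h2 := Configuration.ProjectivePlane.card_points
    (Projectivization K (Fin 3 → K)) (Projectivization K (Fin 3 → K))
  rw [h1] at h2
  have h3 : 0 < p ^ k := pow_pos hp'.pos k
  nlinarith

/-- **the explicit lower bound** for prime powers -/
theorem explicit (q d : ℕ) (hq : IsPrimePow q) (hd : (√q + 1) ^ 2 ≤ d) : √q / d ≤ gapRegular d :=
  explicit_plane q d (planeExists_primePow q hq) hd

end Pool.Agent.H64.EQ
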